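import Pool.Agent.H28.SPKAll

/-!
# Strongly perfect diamond-free graphs without claws centred in triangles

`MP_f2aa9e_lc` asks for the recognition of strongly perfect diamond-free graphs. Here is a
complete description of the obstructions in the class of the diamond-free graphs in which no
vertex of a triangle is the centre of a claw. The class contains all diamond-free graphs of maximum
degree at most three, all triangle-free graphs and the line graphs of triangle-free graphs.

If every vertex of `G[U]` is in exactly two maximal cliques, and their sizes satisfy
`∑ (|C| - 2) ≤ 2`, then `G[U]` is the line graph of a graph with minimum degree at least two and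
`∑ (deg - 2) ≤ 2`, that is, of a disjoint union of cycles and at most one (subdivided) theta,
handcuff or figure eight graph. So a graph of the class is strongly perfect unless it has an
induced subgraph which is the line graph of such a graph with an odd number of vertices.

By the third condition the sets `W` that contain all vertices in no triangle of `G` and at most two
vertices of each clique of `G`, apart from one clique (four vertices) or two (three vertices each),
are the only ones for which one has to check that `G[W]` has a strong stable set. If `G` has at
most `k` maximal cliques with at least three vertices, there are only polynomially many such sets,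
for fixed `k`.
-/

namespace Pool.Agent.Results.MP_f2aa9e_lc.OddTwoCover

open Pool.Agent.H28.SP

/-- Let `G` be a diamond-free graph in which no vertex of a triangle is the centre of a claw. The
following are equivalent.
* `G` is not strongly perfect.
* For some nonempty vertex set `U` every vertex of `U` is in exactly two maximal cliques of `G[U]`,
  the number of the maximal cliques `C` of `G[U]` is odd, and the sum of the numbers `|C| - 2`
  (truncated at `0`) is at most two.
* For some vertex set `W`, which contains all vertices that are in no triangle of `G`, the sum of
  the numbers `|C| - 2` (truncated at `0`) over the maximal cliques `C` of `G[W]` is at most two,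
  and `G[W]` has no strong stable set. -/
theorem result {V : Type*} [Fintype V] [DecidableEq V] (G : SimpleGraph V)
    (hG : DiamondFree G) (hK : NoClawAtTriangle G) :
    List.TFAE [
      ¬ StronglyPerfect G,
      ∃ U : Finset V, U.Nonempty ∧
        (∀ v ∈ U, ((maxCliques G U).filter (fun C => v ∈ C)).card = 2) ∧
        Odd (maxCliques G U).card ∧ ∑ C ∈ maxCliques G U, (C.card - 2) ≤ 2,
      ∃ W : Finset V, W.Nonempty ∧ (∀ v, v ∉ W → InTriangle G v) ∧
        ∑ C ∈ maxCliques G W, (C.card - 2) ≤ 2 ∧ ¬ ∃ S, StrongStableIn G W S] := by
  tfae_have 1 → 2 := by
    intro h
    obtain ⟨U, hU⟩ := exists_minObs h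
    exact ⟨U, hU.1, hU.two_cliques hG hK, hU.odd_cliques (hU.two_cliques hG hK), hU.few hG hK⟩
  tfae_have 2 → 1 := by
    rintro ⟨U, hne, h2, ho, _⟩ hSP
    exact no_strong_of_parity (fun v hv => by rw [h2 v hv]; decide) ho (hSP U hne)
  tfae_have 1 → 3 := by
    intro h
    obtain ⟨U, hU⟩ := exists_minObs h
    obtain ⟨W, hUW, hW1, hW2, hW3⟩ := hU.enlarge hG (hU.few hG hK)
    exact ⟨W, hU.1.mono hUW, hW1, hW2, hW3⟩
  tfae_have 3 → 1 := by
    rintro ⟨W, hne, _, _, hno⟩ hSP
    exact hno (hSP W hne)
  tfae_finish

end Pool.Agent.Results.MP_f2aa9e_lc.OddTwoCover
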