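import Pool.Agent.H20.SP.Fin3

/-!
# The parity criterion fails for diamond-free graphs in general

`MP_f2aa9e_lc` asks for the recognition of strongly perfect diamond-free graphs. Call `X ⊆ W` an
odd transversal of `G[W]` if it meets every maximal clique of `G[W]` in an odd number of vertices.
If a diamond-free graph is strongly perfect, each of its induced subgraphs has an odd transversal,
and the converse is true if every centre of a claw is in at most one maximal clique with at least
three vertices (`ParityTheorem`). Here is a diamond-free graph with 13 vertices, in which only one
vertex is in two maximal cliques with at least three vertices, for which the converse is false.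
-/

namespace Pool.Agent.Results.MP_f2aa9e_lc.ParityCounterexample

open Pool.Agent.H28.SP

/-- There is a diamond-free graph `G` on 13 vertices with a vertex `z` such that any two triangles
that contain the same vertex other than `z` are in a common clique, every induced subgraph `G[W]`
has a set `X ⊆ W` that meets every maximal clique of `G[W]` in an odd number of vertices, and `G`
is not strongly perfect. -/
theorem result : ∃ (G : SimpleGraph (Fin 13)) (z : Fin 13), DiamondFree G ∧
    (∀ v a b c d : Fin 13, v ≠ z → G.Adj v a → G.Adj v b → G.Adj a b → G.Adj v c → G.Adj v d →
      G.Adj c d → a = c ∨ G.Adj a c) ∧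
    (∀ W : Finset (Fin 13), W.Nonempty →
      ∃ X ⊆ W, ∀ C, MaxCliqueIn G W C → Odd (C ∩ X).card) ∧
    ¬ StronglyPerfect G :=
  ⟨Pool.Agent.H20.SP3.G13, 7, Pool.Agent.H20.SP3.df13, Pool.Agent.H20.SP3.one_exception,
    Pool.Agent.H20.SP3.odd_all, Pool.Agent.H20.SP3.not_sp⟩

end Pool.Agent.Results.MP_f2aa9e_lc.ParityCounterexample
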