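import Pool.Agent.H28.SPN9

/-!
# A parity characterisation of strong perfection in a wide class of diamond-free graphs

`MP_f2aa9e_lc` asks for the recognition of strongly perfect diamond-free graphs. The theorem is
about the diamond-free graphs in which every centre of a claw is in at most one maximal clique
with at least three vertices. The class contains all diamond-free graphs in which every vertex is
in at most one maximal clique with at least three vertices, and all diamond-free graphs in which no
vertex of a triangle is the centre of a claw (for example all diamond-free graphs of maximum degree
at most three and all line graphs of triangle-free graphs).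

Call `X ⊆ W` an odd transversal of `G[W]` if it meets every maximal clique of `G[W]` in an odd
number of vertices. Strong stable sets are odd transversals, and the existence of an odd
transversal is a question of linear algebra over the field with two elements. The theorem says
that a graph of the class is strongly perfect if (and only if) each of its induced subgraphs has an
odd transversal. Moreover it suffices to check the induced subgraphs `G[W]` for which `W` contains
all vertices in no triangle, and which have, as maximal cliques with at least three vertices, at
most two triangles or one clique with four vertices.
-/

namespace Pool.Agent.Results.MP_f2aa9e_lc.ParityTheorem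

open Pool.Agent.H28.SP

/-- Let `G` be a diamond-free graph in which any two triangles that contain the same centre of a
claw are in a common clique. Then `G` is not strongly perfect if and only if there is a nonempty
vertex set `W`, which contains all vertices that are in no triangle of `G`, such that the sum of
the numbers `|C| - 2` (truncated at `0`) over the maximal cliques `C` of `G[W]` is at most two, and
no `X ⊆ W` meets every maximal clique of `G[W]` in an odd number of vertices. -/
theorem result {V : Type*} [Fintype V] [DecidableEq V] (G : SimpleGraph V)
    (hG : DiamondFree G) (hc : OneBigAtCentre G) :
    ¬ StronglyPerfect G ↔
      ∃ W : Finset V, W.Nonempty ∧ (∀ v, v ∉ W → InTriangle G v) ∧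
        ∑ C ∈ maxCliques G W, (C.card - 2) ≤ 2 ∧
        ¬ ∃ X ⊆ W, ∀ C, MaxCliqueIn G W C → Odd (C ∩ X).card := by
  constructor
  · intro h
    obtain ⟨U, hU⟩ := exists_minObs h
    obtain ⟨W, hUW, hW⟩ := hU.enlargeL hG (hU.fewN hG hc) (hU.no_oddM hG hc)
    exact ⟨W, hU.1.mono hUW, hW⟩
  · rintro ⟨W, hne, _, _, hno⟩ hSP
    obtain ⟨S, hS⟩ := hSP W hne
    exact hno (odd_of_strong hS)

end Pool.Agent.Results.MP_f2aa9e_lc.ParityTheorem
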