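import Pool.Agent.H28.SPBal2

/-!
# Which diamond-free graphs are strongly perfect

`MP_f2aa9e_lc` asks for the complexity of recognising strongly perfect graphs among diamond-free
graphs. For every diamond-free graph that is not strongly perfect the theorem gives a certificate
of polynomial size which can be checked in polynomial time: a vertex set `U` such that

* the edges of `G[U]` that lie in no triangle of `G[U]` form a graph that is not bipartite, or
* `G[U]` has a *cheap cover*: a multiset of fewer maximal cliques than `G[U]` has, which covers
  every vertex of `U` at least as often as the family of all maximal cliques of `G[U]` does. In a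
  diamond-free graph the maximal cliques are the `lines`, of which there are at most as many as
  vertices and edges.

So the recognition problem is in co-NP. The first alternative says that the clique matrix of `G`
has an odd hole submatrix; so strongly perfect diamond-free graphs are balanced.
-/

namespace Pool.Agent.Results.MP_f2aa9e_lc.ShortCertificate

open Pool.Agent.H28.SP

/-- A diamond-free graph `G` is not strongly perfect if and only if

* for some vertex set `U` the edges of `G[U]` in no triangle of `G[U]` form a graph that is not
  bipartite, or
* for some nonempty vertex set `U` the graph `G[U]` has a cheap cover `F`.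

In the second case one can choose `U` and `F` such that every vertex of `U` has two non-adjacent
neighbours in `U` and is on an edge of `G[U]` which is in no triangle of `G[U]` and is not a
member of `F`. -/
theorem result {V : Type*} [Fintype V] [DecidableEq V] (G : SimpleGraph V) [DecidableRel G.Adj]
    (hG : DiamondFree G) :
    ¬ StronglyPerfect G ↔
      (∃ U : Finset V, ¬ (PureGraph G U).Colorable 2) ∨
      ∃ U : Finset V, U.Nonempty ∧
        (∀ v ∈ U, ∃ x ∈ U, ∃ y ∈ U, x ≠ y ∧ G.Adj v x ∧ G.Adj v y ∧ ¬ G.Adj x y) ∧
        ∃ F : Multiset (Finset V), CheapCover G U F ∧
          ∀ v ∈ U, ∃ w ∈ U, PureEdge G U v w ∧ {v, w} ∉ F := by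
  constructor
  · intro h
    by_cases hbip : ∀ U : Finset V, (PureGraph G U).Colorable 2
    · right
      obtain ⟨U, hU⟩ := exists_minObs h
      have hP : PerfOn G U := perfOn_of_bicol hG (exists_bicol hG hbip) U
      obtain ⟨F, hF⟩ := cheapCover_of_no_strong G U hP hU.2.1
      exact ⟨U, hU.1, hU.not_simplicial, F, (cheapCover_iff G hG hU.1 F).mpr hF,
        hU.cheapCover hG hF⟩
    · left
      push Not at hbip
      exact hbip
  · rintro (⟨U, hU⟩ | ⟨U, hne, _, F, hF, _⟩)
    · exact not_stronglyPerfect_of_oddPureWalk (oddPureWalk_of_not_colorable hU)
    · intro hG'
      exact no_strong_of_cheapCover G U F ((cheapCover_iff G hG hne F).mp hF) (hG' U hne)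

end Pool.Agent.Results.MP_f2aa9e_lc.ShortCertificate
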